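import Mathlib
import Pool.Agent.Results.MP_fd02da_an.SchattenIsometries
/-!
Diagonal operators, and the averaging contraction of a Schatten class.
Built on the starting library `Pool.Agent.Helper872.Sch` and on
`Pool.Agent.Results.MP_fd02da_an.SchattenIsometries`.
-/
set_option autoImplicit false
set_option linter.unusedSectionVars false
open scoped ENNReal InnerProductSpace Topology
open Module ContinuousLinearMap Filter
open Pool.Agent.Helper872.Sch
open Pool.Agent.Results.MP_fd02da_an.SchattenIsometries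

namespace Pool.Agent.Y280.SI

universe u
variable {H : Type u} [NormedAddCommGroup H] [InnerProductSpace ℂ H] [CompleteSpace H]
variable {ι : Type*}

theorem norm_sum_proj_le (b : HilbertBasis ι ℂ H) (F : Finset ι) (d : ι → ℂ) {M : ℝ} (hM0 : 0 ≤ M)
    (hM : ∀ i ∈ F, ‖d i‖ ≤ M) : ‖∑ i ∈ F, d i • proj b i‖ ≤ M := by
  classical
  refine opNorm_le_bound _ hM0 fun x => ?_
  have h1 : (∑ i ∈ F, d i • proj b i) x = ∑ i ∈ F, (d i * ⟪b i, x⟫_ℂ) • b i := by
    rw [sum_apply]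
    refine Finset.sum_congr rfl fun i _ => ?_
    rw [smul_apply, Pool.Agent.Results.MP_fd02da_an.SchattenIsometries.proj_apply, smul_smul]
  have h2 : ‖∑ i ∈ F, (d i * ⟪b i, x⟫_ℂ) • b i‖ ^ 2 = ∑ i ∈ F, ‖d i * ⟪b i, x⟫_ℂ‖ ^ 2 := by
    have h3 : ⟪∑ i ∈ F, (d i * ⟪b i, x⟫_ℂ) • b i, ∑ i ∈ F, (d i * ⟪b i, x⟫_ℂ) • b i⟫_ℂ
        = ∑ i ∈ F, (starRingEnd ℂ (d i * ⟪b i, x⟫_ℂ)) * (d i * ⟪b i, x⟫_ℂ) :=
      b.orthonormal.inner_sum _ _ F
    rw [inner_self_eq_norm_sq_to_K] at h3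
    have h4 : ((‖∑ i ∈ F, (d i * ⟪b i, x⟫_ℂ) • b i‖ ^ 2 : ℝ) : ℂ)
        = ((∑ i ∈ F, ‖d i * ⟪b i, x⟫_ℂ‖ ^ 2 : ℝ) : ℂ) := by
      push_cast
      rw [show ((‖∑ i ∈ F, (d i * ⟪b i, x⟫_ℂ) • b i‖ : ℝ) : ℂ) ^ 2 = _ from h3]
      refine Finset.sum_congr rfl fun i _ => ?_
      rw [Complex.conj_mul', norm_mul]
      try push_cast
      try rfl
    exact_mod_cast h4
  rw [h1, ← pow_le_pow_iff_left₀ (norm_nonneg _) (by positivity) two_ne_zero, h2, mul_pow]
  calc ∑ i ∈ F, ‖d i * ⟪b i, x⟫_ℂ‖ ^ 2 ≤ ∑ i ∈ F, M ^ 2 * ‖⟪b i, x⟫_ℂ‖ ^ 2 := by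
        refine Finset.sum_le_sum fun i hi => ?_
        rw [norm_mul, mul_pow]
        gcongr
        exact hM i hi
    _ = M ^ 2 * ∑ i ∈ F, ‖⟪b i, x⟫_ℂ‖ ^ 2 := by rw [Finset.mul_sum]
    _ ≤ M ^ 2 * ‖x‖ ^ 2 := by
        gcongr
        exact b.orthonormal.sum_inner_products_le x

theorem summable_diag (b : HilbertBasis ι ℂ H) {d : ι → ℂ} {p : ℝ} (hp : 0 < p)
    (hd : ∑' i, ‖d i‖ₑ ^ p ≠ ∞) : Summable fun i => d i • proj b i := by
  classical
  rw [summable_iff_vanishing_norm]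
  intro ε hε
  have h1 := ENNReal.tendsto_cofinite_zero_of_tsum_ne_top hd
  have h2 : ∀ᶠ i in cofinite, ‖d i‖ₑ ^ p < (ENNReal.ofReal (ε / 2)) ^ p := by
    refine (tendsto_order.1 h1).2 _ ?_
    exact ENNReal.rpow_pos (ENNReal.ofReal_pos.2 (by positivity)) ENNReal.ofReal_ne_top
  have h3 : {i | ¬ ‖d i‖ₑ ^ p < (ENNReal.ofReal (ε / 2)) ^ p}.Finite := h2
  refine ⟨h3.toFinset, fun t ht => ?_⟩
  refine lt_of_le_of_lt (norm_sum_proj_le b t d (M := ε / 2) (by positivity) ?_) (by linarith)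
  intro i hi
  have h4 : i ∉ h3.toFinset := fun hc => (Finset.disjoint_left.1 ht) hi hc
  rw [Set.Finite.mem_toFinset] at h4
  have h5 : ‖d i‖ₑ ^ p < (ENNReal.ofReal (ε / 2)) ^ p := by
    by_contra hcon
    exact h4 hcon
  have h6 : ‖d i‖ₑ < ENNReal.ofReal (ε / 2) := (ENNReal.rpow_lt_rpow_iff hp).1 h5
  rw [← ofReal_norm, ENNReal.ofReal_lt_ofReal_iff (by positivity)] at h6
  exact h6.le

/-- the diagonal operator with diagonal `d` -/
noncomputable def diagOp (b : HilbertBasis ι ℂ H) (d : ι → ℂ) : H →L[ℂ] H :=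
  ∑' i, d i • proj b i

theorem diagOp_basis (b : HilbertBasis ι ℂ H) {d : ι → ℂ} {p : ℝ} (hp : 0 < p)
    (hd : ∑' i, ‖d i‖ₑ ^ p ≠ ∞) (j : ι) : diagOp b d (b j) = d j • b j := by
  classical
  have h1 := (summable_diag b hp hd).hasSum
  have h2 := h1.mapL (ContinuousLinearMap.apply ℂ H (b j))
  have h3 : (fun i => ContinuousLinearMap.apply ℂ H (b j) (d i • proj b i))
      = fun i => if i = j then d j • b j else 0 := by
    funext i
    rw [apply_apply, smul_apply, proj_basis]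
    by_cases h : i = j
    · subst h
      simp
    · rw [if_neg h, if_neg (Ne.symm h), zero_smul, smul_zero]
  rw [h3] at h2
  exact h2.unique (hasSum_ite_eq j _)

theorem diagOp_compact (b : HilbertBasis ι ℂ H) {d : ι → ℂ} {p : ℝ} (hp : 0 < p)
    (hd : ∑' i, ‖d i‖ₑ ^ p ≠ ∞) : IsCompactOperator (diagOp b d) := by
  have h1 := (summable_diag b hp hd).hasSum
  have h2 : IsClosed {f : H →L[ℂ] H | IsCompactOperator f} := isClosed_setOf_isCompactOperator
  refine h2.mem_of_tendsto h1 (Eventually.of_forall fun s => ?_)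
  induction s using Finset.cons_induction with
  | empty =>
    simp only [Finset.sum_empty]
    exact isCompactOperator_zero
  | cons i s hi ih =>
    rw [Set.mem_setOf_eq, Finset.sum_cons]
    exact ((proj_compact b i).smul (d i)).add ih

theorem trPow_diag (b : HilbertBasis ι ℂ H) {D : H →L[ℂ] H} {d : ι → ℂ}
    (hD : ∀ j, D (b j) = d j • b j) (hc : IsCompactOperator D) {p : ℝ} (hp : 0 < p) :
    trPow p D = ∑' i, ‖d i‖ₑ ^ p := by
  rw [trPow_eq (diag_sing b hD) (compact_star_mul hc) hp]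
  refine tsum_congr fun i => ?_
  rw [hD, enorm_smul, enorm_eq_one b.orthonormal, mul_one]

theorem diagOp_add (b : HilbertBasis ι ℂ H) {d d' : ι → ℂ} {p : ℝ} (hp : 0 < p)
    (hd : ∑' i, ‖d i‖ₑ ^ p ≠ ∞) (hd' : ∑' i, ‖d' i‖ₑ ^ p ≠ ∞) :
    diagOp b (d + d') = diagOp b d + diagOp b d' := by
  unfold diagOp
  rw [← (summable_diag b hp hd).tsum_add (summable_diag b hp hd')]
  refine tsum_congr fun i => ?_
  rw [Pi.add_apply, add_smul]

theorem diagOp_smul (b : HilbertBasis ι ℂ H) {d : ι → ℂ} (c : ℂ) {p : ℝ} (hp : 0 < p)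
    (hd : ∑' i, ‖d i‖ₑ ^ p ≠ ∞) :
    diagOp b (c • d) = c • diagOp b d := by
  unfold diagOp
  rw [← (summable_diag b hp hd).tsum_const_smul c]
  refine tsum_congr fun i => ?_
  rw [Pi.smul_apply, smul_assoc]

theorem diagOp_positive (b : HilbertBasis ι ℂ H) {d : ι → ℂ} {p : ℝ} (hp : 0 < p)
    (hd : ∑' i, ‖d i‖ₑ ^ p ≠ ∞) {r : ι → ℝ} (h0 : ∀ i, 0 ≤ r i) (hr : ∀ i, d i = (r i : ℂ)) :
    (diagOp b d).IsPositive := by
  have key : ∀ x, ∃ s : ℝ, 0 ≤ s ∧ ⟪x, diagOp b d x⟫_ℂ = (s : ℂ) := by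
    intro x
    have h2 := (summable_diag b hp hd).hasSum
    have h3 := (h2.mapL (ContinuousLinearMap.apply ℂ H x)).mapL (innerSL ℂ x)
    have h4 : (fun i => (innerSL ℂ x) ((ContinuousLinearMap.apply ℂ H x) (d i • proj b i)))
        = fun i => ((r i * ‖⟪b i, x⟫_ℂ‖ ^ 2 : ℝ) : ℂ) := by
      funext i
      rw [apply_apply, innerSL_apply_apply, smul_apply,
        Pool.Agent.Results.MP_fd02da_an.SchattenIsometries.proj_apply, smul_smul, inner_smul_right,
        hr i, mul_assoc, ← inner_conj_symm x (b i), Complex.mul_conj']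
      push_cast
      rfl
    rw [h4] at h3
    have h5 : HasSum (fun i => ((r i * ‖⟪b i, x⟫_ℂ‖ ^ 2 : ℝ) : ℂ)) ⟪x, diagOp b d x⟫_ℂ := h3
    have h6 := Complex.hasSum_re h5
    have h7 := Complex.hasSum_im h5
    simp only [Complex.ofReal_re, Complex.ofReal_im] at h6 h7
    refine ⟨(⟪x, diagOp b d x⟫_ℂ).re, ?_, ?_⟩
    · exact h6.nonneg fun i => mul_nonneg (h0 i) (by positivity)
    · have : (⟪x, diagOp b d x⟫_ℂ).im = 0 := h7.unique hasSum_zero
      exact (Complex.ext rfl (by rw [this]; rfl))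
  rw [ContinuousLinearMap.isPositive_iff_complex]
  intro x
  obtain ⟨s, hs, hx⟩ := key x
  have hx' : ⟪diagOp b d x, x⟫_ℂ = (s : ℂ) := by
    rw [← inner_conj_symm, hx, Complex.conj_ofReal]
  rw [hx']
  simp [hs]

variable {p : ℝ} [hp : Fact (1 ≤ p)]

theorem sum_coef_rpow_le [Nontrivial ι] (b : HilbertBasis ι ℂ H) (a : SchattenClass p H) :
    ∑' k, ‖coef b k a‖ₑ ^ p ≤ trPow p (toOp a) :=
  biorth_le b.orthonormal b.orthonormal (compact_star_mul (toOp_compact a)) hp.out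

/-- The blocks: `φ ⟨n, i⟩`, `i ≤ n`, are the basis vectors of the `n`-th block. -/
abbrev Blk : Type := Σ n : ℕ, Fin (n + 1)

/-- The `n`-th averaged coefficient `(n+1)^(1/p-1) * (sum of the diagonal over the n-th block)`. -/
noncomputable def avg [Nontrivial ι] (b : HilbertBasis ι ℂ H) (φ : Blk → ι) (n : ℕ) :
    SchattenClass p H →L[ℂ] ℂ :=
  ((((n : ℝ) + 1) ^ (1 / p - 1) : ℝ) : ℂ) • ∑ i : Fin (n + 1), coef b (φ ⟨n, i⟩)

theorem avg_apply [Nontrivial ι] (b : HilbertBasis ι ℂ H) (φ : Blk → ι) (n : ℕ)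
    (a : SchattenClass p H) : avg b φ n a =
      ((((n : ℝ) + 1) ^ (1 / p - 1) : ℝ) : ℂ) * ∑ i : Fin (n + 1), coef b (φ ⟨n, i⟩) a := by
  rw [avg, smul_apply, sum_apply, smul_eq_mul]

theorem avg_enorm_le [Nontrivial ι] (b : HilbertBasis ι ℂ H) (φ : Blk → ι) (n : ℕ)
    (a : SchattenClass p H) :
    ‖avg b φ n a‖ₑ ^ p ≤ ∑ i : Fin (n + 1), ‖coef b (φ ⟨n, i⟩) a‖ₑ ^ p := by
  have hp0 : 0 < p := p_pos
  have h1 : (∑ i : Fin (n + 1), ‖coef b (φ ⟨n, i⟩) a‖ₑ) ^ p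
      ≤ ((n : ℝ≥0∞) + 1) ^ (p - 1) * ∑ i : Fin (n + 1), ‖coef b (φ ⟨n, i⟩) a‖ₑ ^ p := by
    have := ENNReal.rpow_sum_le_const_mul_sum_rpow Finset.univ
      (fun i : Fin (n + 1) => ‖coef b (φ ⟨n, i⟩) a‖ₑ) hp.out
    simpa using this
  have h2 : ‖((((n : ℝ) + 1) ^ (1 / p - 1) : ℝ) : ℂ)‖ₑ ^ p * ((n : ℝ≥0∞) + 1) ^ (p - 1) = 1 := by
    have e1 : ‖((((n : ℝ) + 1) ^ (1 / p - 1) : ℝ) : ℂ)‖ₑ = ((n : ℝ≥0∞) + 1) ^ (1 / p - 1) := by
      rw [← ofReal_norm, Complex.norm_real, Real.norm_of_nonneg (by positivity),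
        ← ENNReal.ofReal_rpow_of_pos (by positivity), ENNReal.ofReal_add (by positivity) zero_le_one,
        ENNReal.ofReal_natCast, ENNReal.ofReal_one]
    rw [e1, ← ENNReal.rpow_mul, ← ENNReal.rpow_add _ _ (by simp) (by simp)]
    have : (1 / p - 1) * p + (p - 1) = 0 := by field_simp; ring
    rw [this, ENNReal.rpow_zero]
  rw [avg_apply, enorm_mul, ENNReal.mul_rpow_of_nonneg _ _ hp0.le]
  calc ‖((((n : ℝ) + 1) ^ (1 / p - 1) : ℝ) : ℂ)‖ₑ ^ p * ‖∑ i : Fin (n + 1), coef b (φ ⟨n, i⟩) a‖ₑ ^ p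
      ≤ ‖((((n : ℝ) + 1) ^ (1 / p - 1) : ℝ) : ℂ)‖ₑ ^ p
        * (((n : ℝ≥0∞) + 1) ^ (p - 1) * ∑ i : Fin (n + 1), ‖coef b (φ ⟨n, i⟩) a‖ₑ ^ p) := by
        gcongr
        refine le_trans ?_ h1
        gcongr
        exact enorm_sum_le _ _
    _ = _ := by rw [← mul_assoc, h2, one_mul]

/-- the first basis vector of the `n`-th block -/
def hd (φ : Blk → ι) (n : ℕ) : ι := φ ⟨n, 0⟩

theorem hd_inj {φ : Blk → ι} (hφ : Function.Injective φ) : Function.Injective (hd φ) := by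
  intro m n h
  have := hφ h
  exact congrArg Sigma.fst this

/-- the diagonal of `T a` -/
noncomputable def dd [Nontrivial ι] (b : HilbertBasis ι ℂ H) (φ : Blk → ι)
    (a : SchattenClass p H) : ι → ℂ :=
  Function.extend (hd φ) (fun n => avg b φ n a) 0

theorem dd_hd [Nontrivial ι] (b : HilbertBasis ι ℂ H) {φ : Blk → ι} (hφ : Function.Injective φ)
    (a : SchattenClass p H) (n : ℕ) : dd b φ a (hd φ n) = avg b φ n a :=
  (hd_inj hφ).extend_apply _ _ _

theorem dd_out [Nontrivial ι] (b : HilbertBasis ι ℂ H) {φ : Blk → ι}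
    (a : SchattenClass p H) {i : ι} (hi : ¬ ∃ n, hd φ n = i) : dd b φ a i = 0 :=
  Function.extend_apply' _ _ _ hi

theorem dd_sum_le [Nontrivial ι] (b : HilbertBasis ι ℂ H) {φ : Blk → ι}
    (hφ : Function.Injective φ) (a : SchattenClass p H) :
    ∑' i, ‖dd b φ a i‖ₑ ^ p ≤ trPow p (toOp a) := by
  have hp0 : 0 < p := p_pos
  have hsupp : Function.support (fun i => ‖dd b φ a i‖ₑ ^ p) ⊆ Set.range (hd φ) := by
    intro i hi
    by_contra hcon
    apply hi
    have : dd b φ a i = 0 := dd_out b a hcon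
    simp only [this, enorm_zero, ENNReal.zero_rpow_of_pos hp0]
  rw [← (hd_inj hφ).tsum_eq hsupp]
  calc ∑' n, ‖dd b φ a (hd φ n)‖ₑ ^ p
      ≤ ∑' n, ∑ i : Fin (n + 1), ‖coef b (φ ⟨n, i⟩) a‖ₑ ^ p := by
        refine ENNReal.tsum_le_tsum fun n => ?_
        rw [dd_hd b hφ]
        exact avg_enorm_le b φ n a
    _ = ∑' n, ∑' i : Fin (n + 1), ‖coef b (φ ⟨n, i⟩) a‖ₑ ^ p := by simp only [tsum_fintype]
    _ = ∑' s : Blk, ‖coef b (φ s) a‖ₑ ^ p := by
        exact (ENNReal.tsum_sigma' (fun s : Blk => ‖coef b (φ s) a‖ₑ ^ p)).symm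
    _ ≤ ∑' k, ‖coef b k a‖ₑ ^ p := by
        exact ENNReal.tsum_comp_le_tsum_of_injective hφ (fun k => ‖coef b k a‖ₑ ^ p)
    _ ≤ _ := sum_coef_rpow_le b a

theorem dd_fin [Nontrivial ι] (b : HilbertBasis ι ℂ H) {φ : Blk → ι}
    (hφ : Function.Injective φ) (a : SchattenClass p H) :
    ∑' i, ‖dd b φ a i‖ₑ ^ p ≠ ∞ :=
  (lt_of_le_of_lt (dd_sum_le b hφ a) (toOp_fin a)).ne

theorem dd_add [Nontrivial ι] (b : HilbertBasis ι ℂ H) {φ : Blk → ι}
    (hφ : Function.Injective φ) (a c : SchattenClass p H) : dd b φ (a + c) = dd b φ a + dd b φ c := by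
  funext i
  by_cases hi : ∃ n, hd φ n = i
  · obtain ⟨n, rfl⟩ := hi
    rw [Pi.add_apply, dd_hd b hφ, dd_hd b hφ, dd_hd b hφ, map_add]
  · rw [Pi.add_apply, dd_out b _ hi, dd_out b _ hi, dd_out b _ hi, add_zero]

theorem dd_smul [Nontrivial ι] (b : HilbertBasis ι ℂ H) {φ : Blk → ι}
    (hφ : Function.Injective φ) (s : ℂ) (a : SchattenClass p H) : dd b φ (s • a) = s • dd b φ a := by
  funext i
  by_cases hi : ∃ n, hd φ n = i
  · obtain ⟨n, rfl⟩ := hi
    rw [Pi.smul_apply, dd_hd b hφ, dd_hd b hφ, map_smul]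
  · rw [Pi.smul_apply, dd_out b _ hi, dd_out b _ hi, smul_zero]

/-- The averaging map as a linear map. -/
noncomputable def bigL [Nontrivial ι] (b : HilbertBasis ι ℂ H) {φ : Blk → ι}
    (hφ : Function.Injective φ) : SchattenClass p H →ₗ[ℂ] SchattenClass p H where
  toFun a := ⟨diagOp b (dd b φ a), diagOp_compact b p_pos (dd_fin b hφ a), by
    rw [trPow_diag b (diagOp_basis b p_pos (dd_fin b hφ a))
      (diagOp_compact b p_pos (dd_fin b hφ a)) p_pos]
    exact lt_of_le_of_lt (dd_sum_le b hφ a) (toOp_fin a)⟩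
  map_add' a c := by
    apply toOp_injective
    change diagOp b (dd b φ (a + c)) = diagOp b (dd b φ a) + diagOp b (dd b φ c)
    rw [dd_add b hφ, diagOp_add b p_pos (dd_fin b hφ a) (dd_fin b hφ c)]
  map_smul' s a := by
    apply toOp_injective
    change diagOp b (dd b φ (s • a)) = s • diagOp b (dd b φ a)
    rw [dd_smul b hφ, diagOp_smul b s p_pos (dd_fin b hφ a)]

theorem bigL_norm [Nontrivial ι] (b : HilbertBasis ι ℂ H) {φ : Blk → ι}
    (hφ : Function.Injective φ) (a : SchattenClass p H) : ‖bigL b hφ a‖ ≤ 1 * ‖a‖ := by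
  have hp0 : 0 < p := p_pos
  have h1 : trPow p (toOp (bigL b hφ a)) ≤ trPow p (toOp a) := by
    change trPow p (diagOp b (dd b φ a)) ≤ _
    rw [trPow_diag b (diagOp_basis b hp0 (dd_fin b hφ a))
      (diagOp_compact b hp0 (dd_fin b hφ a)) hp0]
    exact dd_sum_le b hφ a
  rw [← norm_rpow, ← norm_rpow, ENNReal.ofReal_le_ofReal_iff (by positivity)] at h1
  rw [one_mul]
  exact (Real.rpow_le_rpow_iff (norm_nonneg _) (norm_nonneg _) hp0).1 h1

/-- The averaging contraction. -/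
noncomputable def bigT [Nontrivial ι] (b : HilbertBasis ι ℂ H) {φ : Blk → ι}
    (hφ : Function.Injective φ) : SchattenClass p H →L[ℂ] SchattenClass p H :=
  (bigL b hφ).mkContinuous 1 (bigL_norm b hφ)

theorem bigT_norm_le [Nontrivial ι] (b : HilbertBasis ι ℂ H) {φ : Blk → ι}
    (hφ : Function.Injective φ) : ‖(bigT b hφ : SchattenClass p H →L[ℂ] SchattenClass p H)‖ ≤ 1 :=
  (bigL b hφ).mkContinuous_norm_le zero_le_one _

theorem coef_bigT [Nontrivial ι] (b : HilbertBasis ι ℂ H) {φ : Blk → ι}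
    (hφ : Function.Injective φ) (a : SchattenClass p H) (n : ℕ) :
    coef b (hd φ n) (bigT b hφ a) = avg b φ n a := by
  rw [coef_apply]
  change ⟪b (hd φ n), diagOp b (dd b φ a) (b (hd φ n))⟫_ℂ = _
  rw [diagOp_basis b p_pos (dd_fin b hφ a), inner_smul_right, inner_self_eq_norm_sq_to_K,
    b.orthonormal.1, dd_hd b hφ]
  simp

/-- the sum of the rank one projections of the `n`-th block -/
noncomputable def blkS (p : ℝ) [hp : Fact (1 ≤ p)] [Nontrivial ι] (b : HilbertBasis ι ℂ H)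
    (φ : Blk → ι) (n : ℕ) : SchattenClass p H :=
  ∑ i : Fin (n + 1), projS p b (φ ⟨n, i⟩)

theorem coef_blkS [Nontrivial ι] (b : HilbertBasis ι ℂ H) {φ : Blk → ι}
    (hφ : Function.Injective φ) (n : ℕ) (i : Fin (n + 1)) :
    coef b (φ ⟨n, i⟩) (blkS p b φ n) = 1 := by
  rw [blkS, map_sum, Finset.sum_eq_single i, coef_projS]
  · intro j _ hj
    refine coef_projS_ne b fun h => hj ?_
    have h2 := hφ h
    simpa using h2.symm
  · intro h
    exact absurd (Finset.mem_univ _) h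

theorem avg_blkS [Nontrivial ι] (b : HilbertBasis ι ℂ H) {φ : Blk → ι}
    (hφ : Function.Injective φ) (n : ℕ) :
    avg b φ n (blkS p b φ n) = ((((n : ℝ) + 1) ^ (1 / p) : ℝ) : ℂ) := by
  rw [avg_apply]
  simp only [coef_blkS b hφ n, Finset.sum_const, Finset.card_univ, Fintype.card_fin, nsmul_eq_mul,
    mul_one]
  have : ((n : ℝ) + 1) ^ (1 / p) = ((n : ℝ) + 1) ^ (1 / p - 1) * ((n : ℝ) + 1) := by
    rw [Real.rpow_sub_one (by positivity)]
    field_simp
  rw [this]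
  push_cast
  rfl

theorem norm_blkS_le [Nontrivial ι] (b : HilbertBasis ι ℂ H) {φ : Blk → ι}
    (hφ : Function.Injective φ) (n : ℕ) : ‖blkS p b φ n‖ ≤ ((n : ℝ) + 1) ^ (1 / p) := by
  classical
  have hp0 : 0 < p := p_pos
  let d : ι → ℂ := fun k => if ∃ i : Fin (n + 1), φ ⟨n, i⟩ = k then 1 else 0
  have hop : toOp (blkS p b φ n) = ∑ i : Fin (n + 1), proj b (φ ⟨n, i⟩) := by
    rw [blkS, map_sum]
    rfl
  have hD : ∀ k, toOp (blkS p b φ n) (b k) = d k • b k := by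
    intro k
    rw [hop, sum_apply]
    simp only [proj_basis, ← Finset.sum_smul]
    congr 1
    by_cases hk : ∃ i : Fin (n + 1), φ ⟨n, i⟩ = k
    · obtain ⟨i, rfl⟩ := hk
      have e1 : d (φ ⟨n, i⟩) = 1 := if_pos ⟨i, rfl⟩
      rw [e1, Finset.sum_eq_single i]
      · exact if_pos rfl
      · intro j _ hj
        rw [if_neg]
        intro h
        have h2 := hφ h
        exact hj (by simpa using h2.symm)
      · intro h
        exact absurd (Finset.mem_univ _) h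
    · have e1 : d k = 0 := if_neg hk
      rw [e1]
      refine Finset.sum_eq_zero fun i _ => ?_
      rw [if_neg]
      intro h
      exact hk ⟨i, h.symm⟩
  have h1 : trPow p (toOp (blkS p b φ n)) = ((n : ℝ≥0∞) + 1) := by
    rw [trPow_diag b hD (toOp_compact _) hp0]
    let ψ : Fin (n + 1) → ι := fun i => φ ⟨n, i⟩
    have hψ : Function.Injective ψ := by
      intro i j h
      have h2 := hφ h
      simpa using h2
    have hsupp : Function.support (fun i => ‖d i‖ₑ ^ p) ⊆ Set.range ψ := by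
      intro k hk
      by_contra hcon
      apply hk
      have : d k = 0 := if_neg hcon
      simp only [this, enorm_zero, ENNReal.zero_rpow_of_pos hp0]
    rw [← hψ.tsum_eq hsupp, tsum_fintype]
    have e2 : ∀ i, ‖d (ψ i)‖ₑ ^ p = 1 := by
      intro i
      have : d (ψ i) = 1 := if_pos ⟨i, rfl⟩
      rw [this, enorm_one, ENNReal.one_rpow]
    simp only [e2, Finset.sum_const, Finset.card_univ, Fintype.card_fin, nsmul_eq_mul, mul_one]
    push_cast
    rfl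
  have h2 : ‖blkS p b φ n‖ ^ p = (n : ℝ) + 1 := by
    rw [← norm_rpow] at h1
    have e3 : ((n : ℝ≥0∞) + 1) = ENNReal.ofReal ((n : ℝ) + 1) := by
      rw [ENNReal.ofReal_add (by positivity) zero_le_one, ENNReal.ofReal_natCast,
        ENNReal.ofReal_one]
    rw [e3, ENNReal.ofReal_eq_ofReal_iff (by positivity) (by positivity)] at h1
    exact h1
  rw [← h2, ← Real.rpow_mul (norm_nonneg _), mul_one_div, div_self hp0.ne', Real.rpow_one]

theorem bigT_positive [Nontrivial ι] (b : HilbertBasis ι ℂ H) {φ : Blk → ι}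
    (hφ : Function.Injective φ) (a : SchattenClass p H) (ha : (toOp a).IsPositive) :
    (toOp (bigT b hφ a)).IsPositive := by
  classical
  have h1 : ∀ k, ∃ s : ℝ, 0 ≤ s ∧ coef b k a = (s : ℂ) := by
    intro k
    have h2 := (ContinuousLinearMap.isPositive_iff_complex _).1 ha (b k)
    refine ⟨_, h2.2, ?_⟩
    rw [coef_apply, ← inner_conj_symm, ← h2.1]
    simp
  choose s hs0 hs using h1
  have h2 : ∀ i, ∃ r : ℝ, 0 ≤ r ∧ dd b φ a i = (r : ℂ) := by
    intro i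
    by_cases hi : ∃ n, hd φ n = i
    · obtain ⟨n, rfl⟩ := hi
      refine ⟨((n : ℝ) + 1) ^ (1 / p - 1) * ∑ i : Fin (n + 1), s (φ ⟨n, i⟩), ?_, ?_⟩
      · exact mul_nonneg (by positivity) (Finset.sum_nonneg fun i _ => hs0 _)
      · rw [dd_hd b hφ, avg_apply]
        simp only [hs]
        push_cast
        rfl
    · exact ⟨0, le_rfl, by rw [dd_out b a hi]; rfl⟩
  choose r hr0 hr using h2
  exact diagOp_positive b p_pos (dd_fin b hφ a) hr0 hr

end Pool.Agent.Y280.SI
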