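import Mathlib
import Pool.Agent.Results.MP_fd02da_an.SchattenIsometries
/-!
Additivity of the `p`-th power of the Schatten norm on disjoint pairs, and the consequence that
isometries of Schatten classes (`p ≠ 2`) preserve disjointness.
Built on the starting library `Pool.Agent.Helper872.Sch` and on
`Pool.Agent.Results.MP_fd02da_an.SchattenIsometries`.
-/
set_option autoImplicit false
set_option linter.unusedSectionVars false
open scoped ENNReal InnerProductSpace Topology
open Module ContinuousLinearMap Filter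
open Pool.Agent.Helper872.Sch
open Pool.Agent.Results.MP_fd02da_an.SchattenIsometries

namespace Pool.Agent.Y280.SI

universe u
variable {H : Type u} [NormedAddCommGroup H] [InnerProductSpace ℂ H] [CompleteSpace H]

theorem adj_zero_of {a c : H →L[ℂ] H} (h : adjoint a ∘L c = 0) : adjoint c ∘L a = 0 := by
  have h2 : adjoint (adjoint a ∘L c) = 0 := by rw [h, map_zero]
  rwa [adjoint_comp, adjoint_adjoint] at h2

theorem adj_zero_of' {a c : H →L[ℂ] H} (h : c ∘L adjoint a = 0) : a ∘L adjoint c = 0 := by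
  have h2 : adjoint (c ∘L adjoint a) = 0 := by rw [h, map_zero]
  rwa [adjoint_comp, adjoint_adjoint] at h2

theorem comp_zero_apply {a c : H →L[ℂ] H} (h : a ∘L c = 0) (x : H) : a (c x) = 0 :=
  congrFun (congrArg DFunLike.coe h) x

theorem kill {ι : Type*} {b : HilbertBasis ι ℂ H} {a c : H →L[ℂ] H} (hb : SingBasis b a)
    (h : c ∘L adjoint a = 0) {i : ι} (hi : a (b i) ≠ 0) : c (b i) = 0 := by
  have h1 := comp_zero_apply h (a (b i))
  rw [hb i, map_smul] at h1
  rcases smul_eq_zero.1 h1 with h2 | h2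
  · exfalso
    have : (‖a (b i)‖ ^ 2 : ℝ) = 0 := by exact_mod_cast h2
    exact hi (by simpa using this)
  · exact h2

theorem orth_kill {ι κ : Type*} {b : HilbertBasis ι ℂ H} {g : HilbertBasis κ ℂ H}
    {a c : H →L[ℂ] H} (hb : SingBasis b a) (hg : SingBasis g c)
    (h : c ∘L adjoint a = 0) {i : ι} (hi : a (b i) ≠ 0) {j : κ} (hj : c (g j) ≠ 0) :
    ⟪b i, g j⟫_ℂ = 0 := by
  have h1 : ⟪(adjoint a) (a (b i)), (adjoint c) (c (g j))⟫_ℂ = 0 := by
    rw [← adjoint_inner_left, adjoint_adjoint, comp_zero_apply h, inner_zero_left]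
  rw [hb i, hg j, inner_smul_left, inner_smul_right] at h1
  have e1 : ((‖a (b i)‖ ^ 2 : ℝ) : ℂ) ≠ 0 := by
    have : ‖a (b i)‖ ≠ 0 := by simpa using hi
    exact_mod_cast pow_ne_zero 2 this
  have e2 : ((‖c (g j)‖ ^ 2 : ℝ) : ℂ) ≠ 0 := by
    have : ‖c (g j)‖ ≠ 0 := by simpa using hj
    exact_mod_cast pow_ne_zero 2 this
  rw [Complex.conj_ofReal] at h1
  rcases mul_eq_zero.1 h1 with h2 | h2
  · exact absurd h2 e1
  · rcases mul_eq_zero.1 h2 with h3 | h3
    · exact absurd h3 e2
    · exact h3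

theorem zero_of_orth {ι : Type*} {b : HilbertBasis ι ℂ H} {a : H →L[ℂ] H} {v : H}
    (h : ∀ i, a (b i) ≠ 0 → ⟪b i, v⟫_ℂ = 0) : a v = 0 := by
  have h1 := (b.hasSum_repr v).mapL a
  have h2 : (fun i => a (b.repr v i • b i)) = fun _ => 0 := by
    funext i
    rw [map_smul, HilbertBasis.repr_apply_apply]
    by_cases hi : a (b i) = 0
    · rw [hi, smul_zero]
    · rw [h i hi, zero_smul]
  rw [h2] at h1
  exact h1.unique hasSum_zero |>.symm ▸ rfl

/-- The `p`-th power of the Schatten norm is additive on disjoint pairs. -/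
theorem trPow_add_disjoint {a c : H →L[ℂ] H} (ha : IsCompactOperator a) (hc : IsCompactOperator c)
    {p : ℝ} (hp : 0 < p) (h1 : adjoint a ∘L c = 0) (h2 : c ∘L adjoint a = 0) :
    trPow p (a + c) = trPow p a + trPow p c := by
  classical
  obtain ⟨ι, b, hb⟩ := exists_singBasis a (compact_star_mul ha)
  obtain ⟨κ, g, hg⟩ := exists_singBasis c (compact_star_mul hc)
  have h1' := adj_zero_of h1
  have h2' := adj_zero_of' h2
  -- the combined orthonormal family
  let f : {i // a (b i) ≠ 0} ⊕ {j // c (g j) ≠ 0} → H :=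
    Sum.elim (fun i => b i.1) (fun j => g j.1)
  have hf : Orthonormal ℂ f := by
    constructor
    · rintro (i | j)
      · exact b.orthonormal.1 _
      · exact g.orthonormal.1 _
    · rintro (i | i) (j | j) hij
      · exact b.orthonormal.2 (fun hh => hij (by rw [Subtype.ext hh]))
      · exact orth_kill hb hg h2 i.2 j.2
      · have := orth_kill hb hg h2 j.2 i.2
        change ⟪g i.1, b j.1⟫_ℂ = 0
        rw [← inner_conj_symm, this, map_zero]
      · exact g.orthonormal.2 (fun hh => hij (by rw [Subtype.ext hh]))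
  obtain ⟨w, e, hw, he⟩ := hf.toSubtypeRange.exists_hilbertBasis_extension
  have hfw : ∀ s, f s ∈ w := fun s => hw ⟨s, rfl⟩
  -- outside the range of `f` both operators vanish
  have hout : ∀ v : w, (v : H) ∉ Set.range f → a v = 0 ∧ c v = 0 := by
    intro v hv
    have horth : ∀ s, ⟪f s, (v : H)⟫_ℂ = 0 := by
      intro s
      have hne : (⟨f s, hfw s⟩ : w) ≠ v := by
        intro hh
        exact hv ⟨s, by rw [← hh]⟩
      have := e.orthonormal.2 hne
      rwa [he] at this
    exact ⟨zero_of_orth (b := b) fun i hi => horth (Sum.inl ⟨i, hi⟩),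
      zero_of_orth (b := g) fun j hj => horth (Sum.inr ⟨j, hj⟩)⟩
  have hca : ∀ i, a (b i) ≠ 0 → c (b i) = 0 := fun i hi => kill hb h2 hi
  have hac : ∀ j, c (g j) ≠ 0 → a (g j) = 0 := fun j hj => kill hg h2' hj
  have hsing : SingBasis e (a + c) := by
    intro v
    rw [he]
    by_cases hv : (v : H) ∈ Set.range f
    · obtain ⟨s, hs⟩ := hv
      rw [← hs]
      rcases s with i | j
      · change (adjoint (a + c)) ((a + c) (b i.1)) = ((‖(a + c) (b i.1)‖ ^ 2 : ℝ) : ℂ) • b i.1
        rw [add_apply, hca _ i.2, add_zero, map_add, add_apply, comp_zero_apply h1', add_zero,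
          hb i.1]
      · change (adjoint (a + c)) ((a + c) (g j.1)) = ((‖(a + c) (g j.1)‖ ^ 2 : ℝ) : ℂ) • g j.1
        rw [add_apply, hac _ j.2, zero_add, map_add, add_apply, comp_zero_apply h1, zero_add,
          hg j.1]
    · obtain ⟨e1, e2⟩ := hout v hv
      rw [add_apply, e1, e2, add_zero, map_zero, norm_zero]
      simp
  have hcomp : IsCompactOperator (adjoint (a + c) ∘L (a + c)) := compact_star_mul (a := a + c) (ha.add hc)
  rw [trPow_eq hsing hcomp hp, trPow_eq hb (compact_star_mul ha) hp,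
    trPow_eq hg (compact_star_mul hc) hp]
  -- reduce the sums to the supports
  have s1 : ∑' i, ‖a (b i)‖ₑ ^ p = ∑' i : {i // a (b i) ≠ 0}, ‖a (b i.1)‖ₑ ^ p := by
    have : Function.support (fun i => ‖a (b i)‖ₑ ^ p) ⊆ {i | a (b i) ≠ 0} := by
      intro i hi h0
      apply hi
      simp [h0, ENNReal.zero_rpow_of_pos hp]
    exact (tsum_subtype_eq_of_support_subset this).symm
  have s2 : ∑' j, ‖c (g j)‖ₑ ^ p = ∑' j : {j // c (g j) ≠ 0}, ‖c (g j.1)‖ₑ ^ p := by
    have : Function.support (fun i => ‖c (g i)‖ₑ ^ p) ⊆ {i | c (g i) ≠ 0} := by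
      intro i hi h0
      apply hi
      simp [h0, ENNReal.zero_rpow_of_pos hp]
    exact (tsum_subtype_eq_of_support_subset this).symm
  let F : {i // a (b i) ≠ 0} ⊕ {j // c (g j) ≠ 0} → w := fun s => ⟨f s, hfw s⟩
  have hF : Function.Injective F := fun s t hst => hf.linearIndependent.injective (Subtype.ext_iff.1 hst)
  have s3 : ∑' v : w, ‖(a + c) (e v)‖ₑ ^ p = ∑' s, ‖(a + c) (f s)‖ₑ ^ p := by
    have hsupp : Function.support (fun v : w => ‖(a + c) (e v)‖ₑ ^ p) ⊆ Set.range F := by
      intro v hv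
      by_contra hcon
      apply hv
      have hv' : (v : H) ∉ Set.range f := by
        rintro ⟨s, hs⟩
        exact hcon ⟨s, Subtype.ext hs⟩
      obtain ⟨e1, e2⟩ := hout v hv'
      simp only [he, add_apply, e1, e2, add_zero, enorm_zero, ENNReal.zero_rpow_of_pos hp]
    rw [← hF.tsum_eq hsupp]
    simp only [he]
    rfl
  rw [s1, s2, s3, Summable.tsum_sum ENNReal.summable ENNReal.summable]
  congr 1
  · refine tsum_congr fun i => ?_
    change ‖(a + c) (b i.1)‖ₑ ^ p = _
    rw [add_apply, hca _ i.2, add_zero]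
  · refine tsum_congr fun j => ?_
    change ‖(a + c) (g j.1)‖ₑ ^ p = _
    rw [add_apply, hac _ j.2, zero_add]

variable {p : ℝ} [hp : Fact (1 ≤ p)]

/-- Two elements of the Schatten class are disjoint if `a† c = 0` and `c a† = 0`
(orthogonal ranges and orthogonal cokernels). -/
def Disj (a c : SchattenClass p H) : Prop :=
  adjoint (toOp a) ∘L toOp c = 0 ∧ toOp c ∘L adjoint (toOp a) = 0

/-- The contractions of the Schatten class which map disjoint pairs to disjoint pairs. -/
def disjointnessPreserving (p : ℝ) [hp : Fact (1 ≤ p)] (H : Type u) [NormedAddCommGroup H]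
    [InnerProductSpace ℂ H] [CompleteSpace H] : Set (SchattenClass p H →L[ℂ] SchattenClass p H) :=
  {V | ‖V‖ ≤ 1 ∧ ∀ a c, Disj a c → Disj (V a) (V c)}

theorem disj_smul {a c : SchattenClass p H} (h : Disj a c) (s t : ℂ) : Disj (s • a) (t • c) := by
  obtain ⟨h1, h2⟩ := h
  have e : adjoint (toOp (s • a)) = (starRingEnd ℂ s) • adjoint (toOp a) := by
    rw [map_smul]
    exact LinearIsometryEquiv.map_smulₛₗ adjoint s (toOp a)
  constructor
  · rw [e, map_smul]
    ext x
    have := comp_zero_apply h1 x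
    simp [this]
  · rw [e, map_smul]
    ext x
    have := comp_zero_apply h2 x
    simp [this]

theorem disj_of_smul {a c : SchattenClass p H} {s t : ℂ} (hs : s ≠ 0) (ht : t ≠ 0)
    (h : Disj (s • a) (t • c)) : Disj a c := by
  have := disj_smul h s⁻¹ t⁻¹
  rwa [smul_smul, smul_smul, inv_mul_cancel₀ hs, inv_mul_cancel₀ ht, one_smul, one_smul] at this

theorem disj_zero_left (c : SchattenClass p H) : Disj 0 c := by
  constructor
  · rw [map_zero, map_zero, zero_comp]
  · rw [map_zero, map_zero, comp_zero]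

theorem disj_zero_right (a : SchattenClass p H) : Disj a 0 := by
  constructor
  · rw [map_zero, comp_zero]
  · rw [map_zero, zero_comp]

theorem trPow_normalised {a c : SchattenClass p H} (h : Disj a c) (ha : ‖a‖ = 1) (hc : ‖c‖ = 1)
    (α β : ℂ) : trPow p (α • toOp a + β • toOp c) = ‖α‖ₑ ^ p + ‖β‖ₑ ^ p := by
  have hp0 : 0 < p := p_pos
  have h' := disj_smul h α β
  unfold Disj at h'
  rw [toOp.map_smul α a, toOp.map_smul β c] at h'
  have n : ∀ x : SchattenClass p H, ‖x‖ = 1 → trPow p (toOp x) = 1 := by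
    intro x hx
    rw [← norm_rpow, hx, Real.one_rpow, ENNReal.ofReal_one]
  rw [trPow_add_disjoint ((toOp_compact a).smul α) ((toOp_compact c).smul β) hp0 h'.1 h'.2,
    trPow_smul (toOp_compact a) hp0, trPow_smul (toOp_compact c) hp0, n a ha, n c hc, mul_one,
    mul_one]

/-- For `p ≠ 2` the isometries of the Schatten class (surjective or not) preserve disjointness. -/
theorem isometries_subset (hp2 : p ≠ 2) :
    isometries (SchattenClass p H) ⊆ disjointnessPreserving p H := by
  intro V hV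
  have hp0 : 0 < p := p_pos
  refine ⟨opNorm_le_bound _ zero_le_one fun a => by rw [hV a, one_mul], fun a c hac => ?_⟩
  by_cases ha : a = 0
  · rw [ha, map_zero]
    exact disj_zero_left _
  by_cases hc : c = 0
  · rw [hc, map_zero]
    exact disj_zero_right _
  have na : ‖a‖ ≠ 0 := norm_ne_zero_iff.2 ha
  have nc : ‖c‖ ≠ 0 := norm_ne_zero_iff.2 hc
  set s : ℂ := ((‖a‖⁻¹ : ℝ) : ℂ) with hs
  set t : ℂ := ((‖c‖⁻¹ : ℝ) : ℂ) with ht
  have hs0 : s ≠ 0 := by
    rw [hs]
    exact_mod_cast inv_ne_zero na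
  have ht0 : t ≠ 0 := by
    rw [ht]
    exact_mod_cast inv_ne_zero nc
  have n1 : ‖s • a‖ = 1 := by
    rw [norm_smul, hs, Complex.norm_real, norm_inv, norm_norm, inv_mul_cancel₀ na]
  have n2 : ‖t • c‖ = 1 := by
    rw [norm_smul, ht, Complex.norm_real, norm_inv, norm_norm, inv_mul_cancel₀ nc]
  have key := trPow_normalised (disj_smul hac s t) n1 n2
  have hN : ∀ α β : ℂ, trPow p (α • toOp (V (s • a)) + β • toOp (V (t • c)))
      = ‖α‖ₑ ^ p + ‖β‖ₑ ^ p := by
    intro α β
    rw [← key α β]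
    have e1 : α • toOp (V (s • a)) + β • toOp (V (t • c)) = toOp (V (α • s • a + β • t • c)) := by
      simp only [map_add, map_smul]
    have e2 : α • toOp (s • a) + β • toOp (t • c) = toOp (α • s • a + β • t • c) := by
      simp only [map_add, map_smul]
    rw [e1, e2, ← norm_rpow, ← norm_rpow, hV]
  obtain ⟨c1, c2⟩ := disjoint_of_norm (toOp_compact _) (toOp_compact _) hp0 hp2 hN
  have hd : Disj (V (s • a)) (V (t • c)) := ⟨c1, c2⟩
  rw [map_smul, map_smul] at hd
  exact disj_of_smul hs0 ht0 hd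

end Pool.Agent.Y280.SI
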